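import Pool.Agent.H840.MX.Stm2
import Pool.Agent.H549.MX.Bez
import Pool.Agent.H967.MX.Noe

/-!
# A twelfth common zero of a cubic and a quartic with eleven transversal common zeros
-/

set_option autoImplicit false

namespace Pool.Agent.H828.MX

open MvPolynomial Pool.Agent.T2H40.MI Pool.Agent.H840.MX

/-- A form at a multiple of a vector. -/
theorem aeval_mul_hom {R : Type} [CommRing R] [Algebra ℂ R] (ξ : R) (c : Fin 3 → ℂ) {f : S} {d : ℕ}
    (hf : f.IsHomogeneous d) :
    aeval (fun l => algebraMap ℂ R (c l) * ξ) f = algebraMap ℂ R (eval c f) * ξ ^ d := by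
  rw [aeval_def, eval₂_eq', eval_eq', map_sum, Finset.sum_mul]
  refine Finset.sum_congr rfl fun m hm => ?_
  have h := hom_deg hf hm
  simp only [Fin.prod_univ_three, mul_pow, map_mul, map_pow]
  rw [← h, pow_add, pow_add]
  ring

/-- The two linear forms which vanish at `q`. -/
noncomputable def la (q : Fin 3 → ℂ) (k j : Fin 3) : S := C (q k) * X j - C (q j) * X k

theorem eval_la (q : Fin 3 → ℂ) (k j : Fin 3) : eval q (la q k j) = 0 := by
  simp only [la, map_sub, map_mul, eval_C, eval_X]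
  ring

/-- A form which vanishes at `q` is in the ideal of the line of `q`. -/
theorem mem_pair (q : Fin 3 → ℂ) (k : Fin 3) (hk : q k ≠ 0) {f : S} {d : ℕ}
    (hf : f.IsHomogeneous d) (hq : eval q f = 0) :
    ∃ A B : S, A * la q k (k + 1) + B * la q k (k + 2) = f := by
  rw [← Ideal.mem_span_pair]
  set I : Ideal S := Ideal.span {la q k (k + 1), la q k (k + 2)} with hI
  have hX : ∀ j : Fin 3, Ideal.Quotient.mk I (X j) =
      algebraMap ℂ (S ⧸ I) (((q k)⁻¹ • q) j) * Ideal.Quotient.mk I (X k) := by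
    intro j
    have h1 : ∀ j : Fin 3, la q k j ∈ I → Ideal.Quotient.mk I (X j) =
        algebraMap ℂ (S ⧸ I) (((q k)⁻¹ • q) j) * Ideal.Quotient.mk I (X k) := by
      intro j hj
      have h2 : (X j : S) - C (((q k)⁻¹ • q) j) * X k = C ((q k)⁻¹) * la q k j := by
        rw [la, Pi.smul_apply, smul_eq_mul, C_mul]
        have h3 : (C ((q k)⁻¹) * C (q k) : S) = 1 := by
          rw [← C_mul, inv_mul_cancel₀ hk, C_1]
        linear_combination (-(X j : S)) * h3
      have h3 : Ideal.Quotient.mk I ((X j : S) - C (((q k)⁻¹ • q) j) * X k) = 0 := by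
        rw [Ideal.Quotient.eq_zero_iff_mem, h2]
        exact I.mul_mem_left _ hj
      rw [map_sub, map_mul, sub_eq_zero] at h3
      exact h3
    have h4 : ∀ j k : Fin 3, j = k ∨ j = k + 1 ∨ j = k + 2 := by decide
    rcases h4 j k with rfl | rfl | rfl
    · apply h1
      have : la q j j = 0 := by rw [la, sub_self]
      rw [this]
      exact I.zero_mem
    · exact h1 _ (Ideal.subset_span (by simp))
    · exact h1 _ (Ideal.subset_span (by simp))
  rw [← Ideal.Quotient.eq_zero_iff_mem]
  have h5 : Ideal.Quotient.mk I f = aeval (fun j => algebraMap ℂ (S ⧸ I) (((q k)⁻¹ • q) j) *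
      Ideal.Quotient.mk I (X k)) f := by
    have h6 : (Ideal.Quotient.mkₐ ℂ I : S →ₐ[ℂ] S ⧸ I) =
        aeval (fun j => algebraMap ℂ (S ⧸ I) (((q k)⁻¹ • q) j) * Ideal.Quotient.mk I (X k)) := by
      refine MvPolynomial.algHom_ext fun j => ?_
      rw [aeval_X, ← hX j]
      rfl
    rw [← h6]
    rfl
  rw [h5, aeval_mul_hom _ _ hf, eval_smul_hom hf, hq, mul_zero, map_zero, zero_mul]

/-- The local statement. -/
theorem local_mem {F g h : S} {dF dg dh : ℕ} (hF : F.IsHomogeneous dF) (hg : g.IsHomogeneous dg)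
    (hh : h.IsHomogeneous dh) {q : Fin 3 → ℂ} (hq : q ≠ 0) (h1 : eval q F = 0) (h2 : eval q g = 0)
    (h3 : eval q h = 0)
    (ht : ∀ α β : ℂ, α • grad F q + β • grad g q = 0 → α = 0 ∧ β = 0) :
    ∃ D : S, eval q D ≠ 0 ∧ D * h ∈ Ideal.span {F, g} := by
  obtain ⟨k, hk⟩ := Function.ne_iff.1 hq
  obtain ⟨A, B, hAB⟩ := mem_pair q k hk hF h1
  obtain ⟨A', B', hAB'⟩ := mem_pair q k hk hg h2
  obtain ⟨a, b, hab⟩ := mem_pair q k hk hh h3
  have ga : ∀ (A B : S), grad (A * la q k (k + 1) + B * la q k (k + 2)) q =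
      eval q A • grad (la q k (k + 1)) q + eval q B • grad (la q k (k + 2)) q := by
    intro A B
    funext i
    simp only [grad, map_add, Derivation.leibniz, smul_eq_mul, map_mul, eval_la, Pi.add_apply,
      Pi.smul_apply]
    ring
  refine ⟨A * B' - A' * B, ?_, ?_⟩
  · intro hD
    rw [map_sub, map_mul, map_mul] at hD
    rw [← hAB, ← hAB', ga, ga] at ht
    generalize grad (la q k (k + 1)) q = u at *
    generalize grad (la q k (k + 2)) q = w at *
    generalize eval q A = x at *
    generalize eval q B = y at *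
    generalize eval q A' = x' at *
    generalize eval q B' = y' at *
    have e1 := ht x' (-x) (by
      funext i
      simp only [Pi.add_apply, Pi.smul_apply, smul_eq_mul, Pi.zero_apply]
      linear_combination (-(w i)) * hD)
    have e2 := ht y' (-y) (by
      funext i
      simp only [Pi.add_apply, Pi.smul_apply, smul_eq_mul, Pi.zero_apply]
      linear_combination (u i) * hD)
    have e3 := ht 1 0 (by
      have hx : x = 0 := neg_eq_zero.1 e1.2
      have hy : y = 0 := neg_eq_zero.1 e2.2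
      rw [hx, hy]
      simp)
    exact one_ne_zero e3.1
  · rw [← hab]
    have e1 : (A * B' - A' * B) * (a * la q k (k + 1) + b * la q k (k + 2)) =
        (a * B' - b * A') * F + (b * A - a * B) * g := by
      rw [← hAB, ← hAB']
      ring
    rw [e1]
    exact Ideal.add_mem _ (Ideal.mul_mem_left _ _ (Ideal.subset_span (by simp)))
      (Ideal.mul_mem_left _ _ (Ideal.subset_span (by simp)))

theorem grad_smul {f : S} {d : ℕ} (hf : f.IsHomogeneous d) (t : ℂ) (q : Fin 3 → ℂ) :
    grad f (t • q) = t ^ (d - 1) • grad f q := by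
  funext i
  simp only [grad, Pi.smul_apply, smul_eq_mul]
  exact eval_smul_hom hf.pderiv t q

/-- a linear form which does not vanish at the points -/
theorem exists_lin (Q : Fin 11 → Fin 3 → ℂ) (hQ : ∀ i, Q i ≠ 0) :
    ∃ r : Fin 3 → ℂ, ∀ i, r ⬝ᵥ Q i ≠ 0 := by
  have h1 : (∏ i, lin (Q i)) ≠ 0 := Finset.prod_ne_zero_iff.2 fun i _ => lin_ne_zero (hQ i)
  have h2 : ∃ r : Fin 3 → ℂ, eval r (∏ i, lin (Q i)) ≠ 0 := by
    by_contra hc
    push Not at hc
    exact h1 (MvPolynomial.funext fun r => by rw [hc r, map_zero])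
  obtain ⟨r, hr⟩ := h2
  refine ⟨r, fun i hi => hr ?_⟩
  rw [map_prod]
  refine Finset.prod_eq_zero (Finset.mem_univ i) ?_
  rw [eval_lin, dotProduct_comm]
  exact hi

/-- The global statement. -/
theorem global_mem (hN : S_NUL) (hD4 : S_D4) {F g : S} {P : Fin 11 → Fin 3 → ℂ} (hE : Eleven F g P)
    (hz : ∀ q : Fin 3 → ℂ, q ≠ 0 → eval q F = 0 → eval q g = 0 → ∃ i, ∃ t : ℂ, q = t • P i)
    {h : S} {d : ℕ} (hh : h.IsHomogeneous d) (h0 : ∀ i, eval (P i) h = 0) :
    ∃ a b : S, h = a * F + b * g := by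
  set J : Ideal S := (Ideal.span {F, g} : Ideal S).colon {h} with hJ
  have hmem : ∀ a : S, a ∈ J ↔ a * h ∈ Ideal.span {F, g} := by
    intro a
    rw [hJ]
    simp [Submodule.mem_colon_singleton]
  obtain ⟨N, hN'⟩ := hN (J : Set S) (by
    intro q hq
    by_cases hqF : eval q F = 0
    · by_cases hqg : eval q g = 0
      · obtain ⟨i, t, rfl⟩ := hz q hq hqF hqg
        have ht : t ≠ 0 := by
          rintro rfl
          exact hq (zero_smul _ _)
        obtain ⟨D, hD1, hD2⟩ := local_mem hE.hF hE.hg hh hq hqF hqg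
          (by rw [eval_smul_hom hh, h0, mul_zero]) (by
            intro α β hαβ
            rw [grad_smul hE.hF, grad_smul hE.hg, smul_smul, smul_smul] at hαβ
            obtain ⟨e1, e2⟩ := hE.trans i _ _ hαβ
            exact ⟨(mul_eq_zero.1 e1).resolve_right (pow_ne_zero _ ht),
              (mul_eq_zero.1 e2).resolve_right (pow_ne_zero _ ht)⟩)
        exact ⟨D, (hmem D).2 hD2, hD1⟩
      · refine ⟨g, (hmem g).2 ?_, hqg⟩
        exact Ideal.mul_mem_right _ _ (Ideal.subset_span (by simp))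
    · refine ⟨F, (hmem F).2 ?_, hqF⟩
      exact Ideal.mul_mem_right _ _ (Ideal.subset_span (by simp)))
  rw [Ideal.span_eq] at hN'
  obtain ⟨r, hr⟩ := exists_lin P hE.ne
  have hr0 : r ≠ 0 := by
    rintro rfl
    exact hr 0 (zero_dotProduct _)
  have hrad : lin r ∈ J.radical := by
    rw [lin]
    exact Ideal.sum_mem _ fun i _ => Ideal.mul_mem_left _ _ ⟨N, hN' i⟩
  obtain ⟨M, hM⟩ := hrad
  have hD : ∀ q : Fin 3 → ℂ, q ≠ 0 → eval q F = 0 → eval q g = 0 → r ⬝ᵥ q ≠ 0 := by
    intro q hq hqF hqg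
    obtain ⟨i, t, rfl⟩ := hz q hq hqF hqg
    have ht : t ≠ 0 := by
      rintro rfl
      exact hq (zero_smul _ _)
    rw [dotProduct_smul, smul_eq_mul]
    exact mul_ne_zero ht (hr i)
  have key : ∀ k : ℕ, (∃ a b : S, lin r ^ k * h = a * F + b * g) →
      ∃ a b : S, h = a * F + b * g := by
    intro k
    induction k with
    | zero =>
      rintro ⟨a, b, hab⟩
      exact ⟨a, b, by rw [← hab, pow_zero, one_mul]⟩
    | succ k ih =>
      rintro ⟨a, b, hab⟩
      refine ih (hD4 F g r hE.hF hE.hg hr0 hD (lin r ^ k * h) a b ?_)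
      rw [← hab]
      ring
  apply key M
  have h1 := (hmem _).1 hM
  rw [Ideal.mem_span_pair] at h1
  obtain ⟨a, b, hab⟩ := h1
  exact ⟨a, b, hab.symm⟩

/-! ### The count of dimensions in degree eleven -/

/-- The evaluation at the eleven points. -/
noncomputable def evl (P : Fin 11 → Fin 3 → ℂ) :
    homogeneousSubmodule (Fin 3) ℂ 11 →ₗ[ℂ] (Fin 11 → ℂ) :=
  (LinearMap.pi fun i => (aeval (P i)).toLinearMap).domRestrict _

theorem evl_apply (P : Fin 11 → Fin 3 → ℂ) (f : homogeneousSubmodule (Fin 3) ℂ 11)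
    (i : Fin 11) : evl P f i = eval (P i) (f : S) := by
  exact RingHom.congr_fun (coe_aeval_eq_eval (P i)) (f : S)

theorem ker_evl (P : Fin 11 → Fin 3 → ℂ) : 67 ≤ Module.finrank ℂ (LinearMap.ker (evl P)) := by
  have h1 := LinearMap.finrank_range_add_finrank_ker (evl P)
  rw [Pool.Agent.H549.MX.finrank_hom] at h1
  have h2 : Module.finrank ℂ (LinearMap.range (evl P)) ≤ 11 := by
    have := Submodule.finrank_le (LinearMap.range (evl P))
    rwa [Module.finrank_fin_fun] at this
  have h3 : (11 + 2).choose 2 = 78 := by decide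
  omega

open Pool.Agent.H549.MX in
theorem range_phi {F g : S} (hF : F.IsHomogeneous 3) (hg : g.IsHomogeneous 4) (hF0 : F ≠ 0) :
    Module.finrank ℂ (LinearMap.range (phi hF hg (le_refl 11))) ≤ 66 := by
  have h1 := LinearMap.finrank_range_add_finrank_ker (phi hF hg (le_refl 11))
  rw [Module.finrank_prod, finrank_hom, finrank_hom] at h1
  have hinj : Function.Injective (psi hF hg (le_refl 11)) := by
    rw [← LinearMap.ker_eq_bot, LinearMap.ker_eq_bot']
    intro c hc
    have h2 : -((c : S) * F) = 0 := congrArg (fun x => (x.2 : S)) hc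
    apply Subtype.ext
    exact (mul_eq_zero.1 (neg_eq_zero.1 h2)).resolve_right hF0
  have h2 : LinearMap.range (psi hF hg (le_refl 11)) ≤ LinearMap.ker (phi hF hg (le_refl 11)) := by
    rintro _ ⟨c, rfl⟩
    rw [LinearMap.mem_ker]
    apply Subtype.ext
    change ((c : S) * g) * F + (-((c : S) * F)) * g = 0
    ring
  have h3 := Submodule.finrank_mono h2
  rw [LinearMap.finrank_range_of_inj hinj, finrank_hom] at h3
  have e1 : (11 - 3 + 2).choose 2 = 45 := by decide
  have e2 : (11 - 4 + 2).choose 2 = 36 := by decide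
  have e3 : (11 - 7 + 2).choose 2 = 15 := by decide
  omega

/-- There is a twelfth common zero. -/
theorem GA (hN : S_NUL) (hD4 : S_D4) : S_GA := by
  intro F g P hE
  have hF0 : F ≠ 0 := hE.irr.ne_zero
  have key : ∃ p : Fin 3 → ℂ, p ≠ 0 ∧ eval p F = 0 ∧ eval p g = 0 ∧ ∀ i, ∀ t : ℂ, p ≠ t • P i := by
    by_contra hc
    push Not at hc
    have hle : LinearMap.ker (evl P) ≤
        LinearMap.range (Pool.Agent.H549.MX.phi hE.hF hE.hg (le_refl 11)) := by
      rintro ⟨h, hh⟩ hk
      rw [LinearMap.mem_ker] at hk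
      have hh' := (mem_homogeneousSubmodule _ _).1 hh
      obtain ⟨a, b, hab⟩ := global_mem hN hD4 hE hc hh' fun i => by
        rw [← evl_apply P ⟨h, hh⟩ i, hk]
        rfl
      refine ⟨(⟨homogeneousComponent 8 a, (mem_homogeneousSubmodule _ _).2
        (homogeneousComponent_isHomogeneous _ _)⟩, ⟨homogeneousComponent 7 b,
        (mem_homogeneousSubmodule _ _).2 (homogeneousComponent_isHomogeneous _ _)⟩), ?_⟩
      apply Subtype.ext
      change homogeneousComponent 8 a * F + homogeneousComponent 7 b * g = h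
      have e1 := Pool.Agent.H967.MX.comp_mul a F 3 11 hE.hF
      have e2 := Pool.Agent.H967.MX.comp_mul b g 4 11 hE.hg
      rw [if_pos (by norm_num)] at e1 e2
      have e3 : homogeneousComponent 11 h = h := by
        rw [homogeneousComponent_of_mem hh', if_pos rfl]
      rw [← e3, hab, map_add, e1, e2]
    have h1 := Submodule.finrank_mono hle
    have h2 := ker_evl P
    have h3 := range_phi hE.hF hE.hg hF0
    omega
  obtain ⟨p, hp, hpF, hpg, hpd⟩ := key
  refine ⟨p, ?_⟩
  have hpd' : ∀ i, ∀ t : ℂ, P i ≠ t • p := by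
    intro i t ht
    have ht0 : t ≠ 0 := by
      rintro rfl
      exact hE.ne i (by rw [ht, zero_smul])
    apply hpd i t⁻¹
    rw [ht, smul_smul, inv_mul_cancel₀ ht0, one_smul]
  refine ⟨hE.hF, hE.hg, hE.irr, hE.ndvd, ?_, ?_, ?_, ?_⟩
  · intro i
    refine Fin.lastCases ?_ (fun i => ?_) i
    · rw [Fin.snoc_last]; exact hp
    · rw [Fin.snoc_castSucc]; exact hE.ne i
  · intro i j
    refine Fin.lastCases ?_ (fun i => ?_) i
    · refine Fin.lastCases ?_ (fun j => ?_) j
      · intro h; exact absurd rfl h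
      · intro _ t
        rw [Fin.snoc_last, Fin.snoc_castSucc]
        exact hpd j t
    · refine Fin.lastCases ?_ (fun j => ?_) j
      · intro _ t
        rw [Fin.snoc_last, Fin.snoc_castSucc]
        exact hpd' i t
      · intro hij t
        rw [Fin.snoc_castSucc, Fin.snoc_castSucc]
        exact hE.diff i j (fun h => hij (by rw [h])) t
  · intro i
    refine Fin.lastCases ?_ (fun i => ?_) i
    · rw [Fin.snoc_last]; exact hpF
    · rw [Fin.snoc_castSucc]; exact hE.zeroF i
  · intro i
    refine Fin.lastCases ?_ (fun i => ?_) i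
    · rw [Fin.snoc_last]; exact hpg
    · rw [Fin.snoc_castSucc]; exact hE.zerog i

end Pool.Agent.H828.MX
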